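import Pool.Agent.Q269.DX.A261.MAIN

set_option autoImplicit false
set_option linter.unusedVariables false

namespace Pool.Agent.Q269.DX.A261

open Pool.Agent.Q269.DX.Bs (ze ze_add)

open Finset Module Pool.Agent.Q269.DX.JQ
open Pool.Agent.Q269.DX.Bs (prs ext)
open scoped Classical

/-- **JQ-EU** -/
theorem t_EU (hID : S_ID) : S_EU := by
  intro s V U ι _ _ _ _ _ _ _ D ρ hD b hb
  have hfin : FiniteDimensional (ZMod 2) V := Module.Finite.of_finite
  have hR := rec_block b D.s₀ ρ 1 hb 0
  have hSp := spn_block b D.s₀ ρ hb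
  let E := D.𝓛.comap (clL (V := V) b.h)
  let F : ((s → V) × (U ⊕ ι → V)) →ₗ[ZMod 2] (U → V) :=
    (LinearMap.funLeft (ZMod 2) V Sum.inl).comp (rowL D (b.N D.s₀ 0) b.h)
  let g : E →ₗ[ZMod 2] (U → V) := F.comp E.subtype
  have hgs : Function.Surjective g := by
    rw [← LinearMap.dualMap_injective_iff, injective_iff_map_eq_zero]
    intro f hf
    have hex : ∀ u : U, ∃ γ : V, ∀ v, D.ω v γ = f (Pi.single u v) := by
      intro u
      obtain ⟨γ, hγ⟩ := om_surj D hD.toSym hD.nd (f.comp (LinearMap.single (ZMod 2) (fun _ : U => V) u))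
      exact ⟨γ, fun v => by rw [hγ]; rfl⟩
    choose Y hY using hex
    have hf2 : ∀ y : U → V, f y = ∑ u, D.ω (Y u) (y u) := by
      intro y
      rw [sum_single]
      refine sum_congr rfl fun u _ => ?_
      rw [← hY, symm_of D hD.toSym]
    let e' : (s → V) × (U ⊕ ι → V) := (0, Sum.elim Y 0)
    have h1 : ∀ e ∈ E, ∑ p, D.ω (e.2 p) (rowL D (b.N D.s₀ 0) b.h e' p) = Bq D (clL b.h e) (clL b.h e') := by
      intro e he
      rw [← pol D hD.toSym (b.N D.s₀ 0) b.h hR e e']
      have h2 : f (g ⟨e, he⟩) = 0 := LinearMap.congr_fun hf _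
      rw [hf2] at h2
      have h3 : ∑ p, D.ω (e'.2 p) (rowL D (b.N D.s₀ 0) b.h e p) = 0 := by
        rw [Fintype.sum_sum_type]
        have h4 : ∑ i : ι, D.ω (e'.2 (Sum.inr i)) (rowL D (b.N D.s₀ 0) b.h e (Sum.inr i)) = 0 := by
          refine sum_eq_zero fun i _ => ?_
          show D.ω 0 _ = 0
          rw [map_zero, LinearMap.zero_apply]
        rw [h4, add_zero]
        exact h2
      rw [h3, add_zero]
    obtain ⟨γ, hγ⟩ := dbl_ann D hD.toSym hD.nd b.h (rowL D (b.N D.s₀ 0) b.h e') (by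
      intro x hx
      have hcl : clL b.h ((0 : s → V), x) = 0 := by
        rw [clL_eq]
        exact Prod.ext rfl hx
      have h2 := h1 (0, x) (by
        show clL b.h ((0 : s → V), x) ∈ D.𝓛
        rw [hcl]; exact Submodule.zero_mem _)
      rw [hcl, map_zero, LinearMap.zero_apply] at h2
      exact h2)
    have h2 : ∀ i : ι, ∑ u, b.C i u • Y u = ∑ t, b.hJ i t • γ t := by
      intro i
      have h3 := hγ (Sum.inr i)
      have h4 : rowL D (b.N D.s₀ 0) b.h e' (Sum.inr i) = ∑ u, b.C i u • Y u := by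
        show ∑ q, b.N D.s₀ 0 (Sum.inr i) q • (e'.2 q + e'.2 (Sum.inr i)) +
          D.T (b.h (Sum.inr i)) (e'.2 (Sum.inr i)) + ∑ t, b.h (Sum.inr i) t • e'.1 t = _
        have h5 : e'.2 (Sum.inr i) = 0 := rfl
        have h6 : ∀ t, e'.1 t = 0 := fun t => rfl
        rw [h5, map_zero, add_zero, Fintype.sum_sum_type]
        simp only [h6, smul_zero, sum_const_zero, add_zero]
        have h7 : ∀ j : ι, e'.2 (Sum.inr j) = 0 := fun j => rfl
        simp only [h7, smul_zero, sum_const_zero, add_zero]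
        rfl
      rw [← h4]
      exact h3
    have h3 : ∀ v : V, (fun u => D.ω v (Y u)) = (0 : U → ZMod 2) := by
      intro v
      by_contra hne
      obtain ⟨i, hi, hi2⟩ := hb.nd _ hne
      apply hi2
      have h4 := congrArg (D.ω v) (h2 i)
      rw [hi] at h4
      simp only [map_sum, map_smul, smul_eq_mul, Pi.zero_apply, zero_smul, sum_const_zero, map_zero] at h4
      rw [← h4]
      exact sum_congr rfl fun u _ => mul_comm _ _
    have h4 : ∀ u, Y u = 0 := by
      intro u
      refine hD.nd _ fun y => ?_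
      rw [symm_of D hD.toSym]
      exact congrFun (h3 y) u
    refine LinearMap.ext fun y => ?_
    rw [hf2, LinearMap.zero_apply]
    refine sum_eq_zero fun u _ => ?_
    rw [h4, map_zero, LinearMap.zero_apply]
  have h1 := LinearMap.finrank_range_add_finrank_ker g
  rw [LinearMap.range_eq_top.2 hgs, finrank_top] at h1
  have hE : finrank (ZMod 2) E = Fintype.card (U ⊕ ι) * finrank (ZMod 2) V := finrank_pre D hD.card b.h hSp
  have hUV : finrank (ZMod 2) (U → V) = Fintype.card U * finrank (ZMod 2) V := by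
    rw [finrank_pi_fintype]; simp
  have hEU : finrank (ZMod 2) (EU D b) = finrank (ZMod 2) (LinearMap.ker g) := by
    refine (LinearEquiv.finrank_eq ?_).symm
    refine LinearEquiv.ofBijective ((E.subtype.comp (LinearMap.ker g).subtype).codRestrict (EU D b) ?_) ⟨?_, ?_⟩
    · rintro ⟨⟨x, hx⟩, hx2⟩
      exact ⟨hx, hx2⟩
    · intro a c hac
      have := congrArg Subtype.val hac
      exact Subtype.ext (Subtype.ext this)
    · rintro ⟨x, hx⟩
      exact ⟨⟨⟨x, hx.1⟩, hx.2⟩, rfl⟩
  have h2 := Module.natCard_eq_pow_finrank (K := ZMod 2) (V := EU D b)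
  have h3 := Module.natCard_eq_pow_finrank (K := ZMod 2) (V := V)
  rw [h2, h3, ← pow_mul]
  congr 1
  rw [hEU]
  rw [hE, hUV, Fintype.card_sum, add_mul] at h1
  rw [mul_comm]
  omega

end Pool.Agent.Q269.DX.A261
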