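import Pool.Agent.Q269.DX.A261.Lin

set_option autoImplicit false
set_option linter.unusedVariables false

namespace Pool.Agent.Q269.DX.A261

open Pool.Agent.Q269.DX.Bs (ze ze_add)

open Finset Module Pool.Agent.Q269.DX.JQ
open Pool.Agent.Q269.DX.Bs (prs ext)
open scoped Classical

lemma mem_prs_univ {ι : Type} [Fintype ι] [LinearOrder ι] (i j : ι) :
    (i, j) ∈ prs (univ : Finset ι) ↔ i < j := by
  unfold prs
  rw [mem_filter]
  constructor
  · intro h
    exact h.2.2.2 (mem_univ _)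
  · intro h
    exact ⟨mem_univ _, mem_univ _, h.ne', fun _ => h⟩

lemma ext_symm {ι : Type} [Fintype ι] [LinearOrder ι] (α : prs (univ : Finset ι) → ZMod 2) {i j : ι}
    (hij : i ≠ j) : ext α i j = ext α j i := by
  have key : ∀ i j : ι, i < j → ext α i j = ext α j i := by
    intro i j h
    have h1 : (i, j) ∈ prs (univ : Finset ι) := (mem_prs_univ i j).2 h
    have h2 : (j, i) ∉ prs (univ : Finset ι) := fun h' => lt_asymm h ((mem_prs_univ j i).1 h')
    unfold Pool.Agent.Q269.DX.Bs.ext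
    rw [dif_pos h1, dif_neg h2, dif_pos ⟨h1, mem_univ _⟩]
  rcases lt_or_gt_of_ne hij with h | h
  · exact key i j h
  · exact (key j i h).symm

section

variable {s U ι : Type} [Fintype s] [Fintype U] [Fintype ι] [LinearOrder ι]

lemma rec_block (b : Bk s U ι) (t₀ : s) (ρ : s → ZMod 2) (R : ℕ) (hb : b.Ok t₀ ρ R)
    (α : prs (univ : Finset ι) → ZMod 2) : Rec (b.N t₀ α) b.h t₀ := by
  rintro (u | i) (u' | j) hpq
  · exact hb.rU u u' (fun h => hpq (by rw [h]))
  · show b.C j u = b.B u j + ze (b.hU u) t₀ * ze (b.hJ j) t₀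
    rw [hb.rJ, add_assoc, z2s, add_zero]
  · show b.B u' i = b.C i u' + ze (b.hJ i) t₀ * ze (b.hU u') t₀
    rw [hb.rJ, mul_comm]
  · have hij : i ≠ j := fun h => hpq (by rw [h])
    show ext α j i + (if i < j then ze (b.hJ j) t₀ * ze (b.hJ i) t₀ else 0) =
      ext α i j + (if j < i then ze (b.hJ i) t₀ * ze (b.hJ j) t₀ else 0) + ze (b.hJ i) t₀ * ze (b.hJ j) t₀
    rw [ext_symm α hij]
    rcases lt_or_gt_of_ne hij with h | h
    · rw [if_pos h, if_neg (lt_asymm h), add_zero, mul_comm]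
    · rw [if_neg (lt_asymm h), if_pos h, add_zero, add_assoc, z2s, add_zero]

lemma spn_block (b : Bk s U ι) (t₀ : s) (ρ : s → ZMod 2) (hb : b.Ok t₀ ρ 1) : Spn b.h := by
  intro l hl
  funext t
  have h1 := hb.many (Pi.single t 1)
  have h2 : 0 < (univ.filter fun i => b.hJ i = Pi.single t 1).card := by omega
  obtain ⟨i, hi⟩ := Finset.card_pos.1 h2
  rw [mem_filter] at hi
  have h3 := hl (Sum.inr i)
  have h4 : b.h (Sum.inr i) = Pi.single t 1 := hi.2
  rw [h4] at h3
  simpa [Pi.single_apply] using h3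

end

/-- **JQ-MAIN** -/
theorem t_MAIN (hID : S_ID) (hTOR : S_TOR) : S_MAIN := by
  intro s V U ι _ _ _ _ _ _ D ρ hD b hb S hc ha hq e he w
  have hR := rec_block b D.s₀ ρ 1 hb 0
  have hE : clL b.h e ∈ D.𝓛 := he.1
  have hU : ∀ u, rowL D (b.N D.s₀ 0) b.h e (Sum.inl u) = 0 :=
    fun u => congrFun (LinearMap.mem_ker.1 he.2) u
  have hS : (D.tw S).Sym := by
    refine ⟨ha, fun φ x y => ?_⟩
    show D.ω (S (D.T φ x)) y = D.ω (S x) (D.T φ y) + ze φ D.s₀ * D.ω (S x) y
    rw [hc, hD.adj]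
  have h1 : ∑ p, D.ω (S (e.2 p)) (rowL D (b.N D.s₀ 0) b.h e p) = 0 := by
    have h := hID s V (U ⊕ ι) (D.tw S) hS (b.N D.s₀ 0) b.h hR e
    rw [hq _ hE] at h
    exact h
  have h2 : ∑ p, D.ω w (rowL D (b.N D.s₀ 0) b.h e p) = 0 := by
    have ht := hTOR s V (U ⊕ ι) D ρ hD (b.N D.s₀ 0) b.h hb.tot w
    have h := pol D hD.toSym (b.N D.s₀ 0) b.h hR e ((fun t => D.T (Pi.single t 1) w), (fun _ => w))
    have hz : rowL D (b.N D.s₀ 0) b.h ((fun t => D.T (Pi.single t 1) w), (fun _ => w)) = 0 :=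
      LinearMap.mem_ker.1 ht.2
    have hcl : clL b.h ((fun t => D.T (Pi.single t 1) w), (fun _ => w)) ∈ D.𝓛 := ht.1
    have hB : Bq D (clL b.h e) (clL b.h ((fun t => D.T (Pi.single t 1) w), (fun _ => w))) = 0 := by
      have h3 := q_add D (clL b.h e) (clL b.h ((fun t => D.T (Pi.single t 1) w), (fun _ => w)))
      rw [hD.sing _ hE, hD.sing _ hcl, hD.sing _ (D.𝓛.add_mem hE hcl)] at h3
      simpa using h3.symm
    rw [hz, hB] at h
    simpa using h
  have h3 : ∑ p, D.ω (S (e.2 p) + w) (rowL D (b.N D.s₀ 0) b.h e p) = 0 := by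
    simp only [map_add, LinearMap.add_apply, sum_add_distrib, h1, h2, add_zero]
  rw [Fintype.sum_sum_type] at h3
  simp only [hU, map_zero, sum_const_zero, zero_add] at h3
  exact h3

end Pool.Agent.Q269.DX.A261
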